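import Pool.Agent.D0H67.CX.Stm

/-! # CX: REC -/

set_option autoImplicit false
set_option linter.unusedSectionVars false
set_option linter.unusedVariables false

namespace Pool.Agent.D0H87.CX

open MvPolynomial Pool.Agent.W428.MOT Pool.Agent.TH192.MT Pool.Agent.D0H67.SUB
  Pool.Agent.D0H67.SUB.Lev Pool.Agent.D0H67.SUB.Shift
open Pool.Agent.D0H67.CX

namespace Rec

variable {K : Type} [Field K] {σ J : Type}

theorem aeval_hom {A : Type} [CommRing A] [Algebra K A] (c : A) (γ : σ → A)
    {f : MvPolynomial σ K} {d : ℕ} (hf : f.IsHomogeneous d) :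
    aeval (fun i => c * γ i) f = c ^ d * aeval γ f := by
  rw [aeval_def, aeval_def, eval₂_eq, eval₂_eq, Finset.mul_sum]
  refine Finset.sum_congr rfl fun m hm => ?_
  have h3 : ∑ i ∈ m.support, m i = d := by
    have := hf (mem_support_iff.1 hm)
    rw [← this, Finsupp.weight_apply, Finsupp.sum]
    exact Finset.sum_congr rfl fun i _ => by simp
  have h4 : ∏ i ∈ m.support, (c * γ i) ^ m i = c ^ d * ∏ i ∈ m.support, γ i ^ m i := by
    rw [← h3, ← Finset.prod_pow_eq_pow_sum, ← Finset.prod_mul_distrib]
    exact Finset.prod_congr rfl fun i _ => by rw [mul_pow]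
  rw [h4]
  ring

theorem coeff_congr {F : Type} [Field F] [Algebra K F] (q : ℕ) (γ δ : σ → PowerSeries F)
    (h : ∀ i, ∀ k ≤ q, PowerSeries.coeff k (γ i) = PowerSeries.coeff k (δ i))
    (f : MvPolynomial σ K) :
    ∀ k ≤ q, PowerSeries.coeff k (aeval γ f) = PowerSeries.coeff k (aeval δ f) := by
  induction f using MvPolynomial.induction_on with
  | C a =>
    intro k _
    rw [MvPolynomial.algHom_C, MvPolynomial.algHom_C]
  | add p q hp hq =>
    intro k hk
    rw [map_add, map_add, map_add, map_add, hp k hk, hq k hk]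
  | mul_X p i hp =>
    intro k hk
    simp only [map_mul, aeval_X, PowerSeries.coeff_mul]
    refine Finset.sum_congr rfl fun ab hab => ?_
    have := Finset.HasAntidiagonal.mem_antidiagonal.1 hab
    rw [hp ab.1 (by omega), h i ab.2 (by omega)]

theorem isPA_aeval {ι : Type} (γ : σ → Pt K ι → PowerSeries (AlgebraicClosure K))
    (h : ∀ i, IsPA (γ i)) (f : MvPolynomial σ K) :
    IsPA (fun z => aeval (fun i => γ i z) f) := by
  induction f using MvPolynomial.induction_on with
  | C a =>
    simp only [MvPolynomial.algHom_C, PowerSeries.algebraMap_apply]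
    exact IsPA.C (IsPF.const a)
  | add p q hp hq =>
    simp only [map_add]
    exact hp.add hq
  | mul_X p i hp =>
    simp only [map_mul, MvPolynomial.aeval_X]
    exact hp.mul (h i)

theorem isPA_ar {N : ℕ} (i : σ) : IsPA (fun z : Pt K (σ × Fin (N + 1)) => ar z i) := by
  intro j
  simp only [coeff_ar]
  split_ifs with h
  · exact IsPF.coord _
  · exact IsPF.zero

theorem pf_coeff {N : ℕ} (f : MvPolynomial σ K) (k : ℕ) :
    IsPF fun z : Pt K (σ × Fin (N + 1)) => PowerSeries.coeff k (aeval (ar z) f) :=
  isPA_aeval (fun i z => ar z i) isPA_ar f k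

/-- the jets on which the ideal has the order `m`, `m` arbitrary -/
def OS (g : J → MvPolynomial σ K) (V : Set (Pt K σ)) (m N : ℕ) :
    Set (Pt K (σ × Fin (N + 1))) :=
  {z | (fun i => z (i, 0)) ∈ V ∧
    (∀ j, ∀ k < m, PowerSeries.coeff k (aeval (ar z) (g j)) = 0) ∧
    ∃ j, PowerSeries.coeff m (aeval (ar z) (g j)) ≠ 0}

theorem constr_OS [Finite J] (g : J → MvPolynomial σ K) {V : Set (Pt K σ)} (hV : Constr V)
    (m N : ℕ) : Constr (OS g V m N) := by
  refine Constr.and ?_ (Constr.and ?_ ?_)
  · exact hV.preimage _ fun i => IsPF.coord _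
  · exact Constr.all fun j => Constr.allLt m fun k _ => Constr.eqz (pf_coeff _ _)
  · exact Constr.ex fun j => Constr.ne (pf_coeff _ _) IsPF.zero

theorem coeff_zero_aeval' {N : ℕ} (f : MvPolynomial σ K) (z : Pt K (σ × Fin (N + 1))) :
    PowerSeries.coeff 0 (aeval (ar z) f) = aeval (fun i => z (i, 0)) f := by
  induction f using MvPolynomial.induction_on with
  | C a =>
    rw [MvPolynomial.algHom_C, MvPolynomial.algHom_C, PowerSeries.algebraMap_apply,
      PowerSeries.coeff_zero_eq_constantCoeff_apply, PowerSeries.constantCoeff_C]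
  | add p q hp hq => rw [map_add, map_add, map_add, hp, hq]
  | mul_X p i hp =>
    simp only [map_mul, aeval_X]
    rw [← hp, ← coeff_ar_zero z i]
    simp only [PowerSeries.coeff_zero_eq_constantCoeff_apply, map_mul]

theorem ar_mt {N : ℕ} (w : Pt K (σ × Fin (N + 1))) (i : σ) :
    ar (mt w) i = PowerSeries.X * ar w i := by
  ext k
  rcases k with _ | k
  · rw [coeff_ar_zero, PowerSeries.coeff_zero_X_mul]
    rfl
  · rw [PowerSeries.coeff_succ_X_mul, coeff_ar, coeff_ar]
    by_cases h : k < N + 1
    · rw [dif_pos h, dif_pos (by omega : k + 1 < N + 1 + 1)]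
      rfl
    · rw [dif_neg h, dif_neg (by omega)]

theorem aeval_mt {N d : ℕ} (w : Pt K (σ × Fin (N + 1))) {f : MvPolynomial σ K}
    (hf : f.IsHomogeneous d) : aeval (ar (mt w)) f = PowerSeries.X ^ d * aeval (ar w) f := by
  have h : ar (mt w) = fun i => PowerSeries.X * ar w i := funext fun i => ar_mt w i
  rw [h, aeval_hom _ _ hf]

theorem mem_mt' {N d : ℕ} (g : J → MvPolynomial σ K) (hg : ∀ j, (g j).IsHomogeneous d)
    (w : Pt K (σ × Fin (N + 1))) (m : ℕ) :
    mt w ∈ OS g {0} m (N + 1) ↔ d ≤ m ∧ w ∈ OS g Set.univ (m - d) N := by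
  have hc : ∀ j k, PowerSeries.coeff k (aeval (ar (mt w)) (g j)) =
      if d ≤ k then PowerSeries.coeff (k - d) (aeval (ar w) (g j)) else 0 := by
    intro j k
    rw [aeval_mt w (hg j), PowerSeries.coeff_X_pow_mul']
  unfold OS
  simp only [Set.mem_ofPred_eq, hc, Set.mem_univ, true_and]
  constructor
  · rintro ⟨-, h1, j, h2⟩
    have h3 : d ≤ m := by
      by_contra h
      rw [if_neg h] at h2
      exact h2 rfl
    refine ⟨h3, fun j k hk => ?_, j, ?_⟩
    · have := h1 j (k + d) (by omega)
      rwa [if_pos (by omega), Nat.add_sub_cancel] at this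
    · rwa [if_pos h3] at h2
  · rintro ⟨h3, h1, j, h2⟩
    refine ⟨?_, fun j k hk => ?_, j, ?_⟩
    · rfl
    · split_ifs with h
      · exact h1 j _ (by omega)
      · rfl
    · rwa [if_pos h3]

variable [Fintype σ]

theorem chi_shift [Finite J] {d : ℕ} (g : J → MvPolynomial σ K) (hg : ∀ j, (g j).IsHomogeneous d)
    {R : Type} [CommRing R] (M : Meas K R) (m N : ℕ) :
    M.χ _ (OS g {0} m (N + 1)) = if d ≤ m then M.χ _ (OS g Set.univ (m - d) N) else 0 := by
  split_ifs with h
  · refine M.iso _ _ (constr_OS g constr_z _ _) (constr_OS g Constr.univ _ _) sh mt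
      (regularOn_poly (fun p => IsPF.coord _) _) (regularOn_poly pf_mt _) ?_ ?_ ?_ ?_
    · intro z hz
      have h1 : mt (sh z) = z := mt_sh z (by rw [jk_zero]; exact hz.1)
      rw [← h1, mem_mt' g hg] at hz
      exact hz.2
    · intro w hw
      rw [mem_mt' g hg]
      exact ⟨h, hw⟩
    · intro z hz
      exact mt_sh z (by rw [jk_zero]; exact hz.1)
    · intro w hw
      exact sh_mt w
  · have h1 : OS g {0} m (N + 1) = ∅ := by
      rw [Set.eq_empty_iff_forall_notMem]
      intro z hz
      have h1 : mt (sh z) = z := mt_sh z (by rw [jk_zero]; exact hz.1)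
      rw [← h1, mem_mt' g hg] at hz
      exact h hz.1
    rw [h1]
    have h2 := M.add (∅ : Set (Pt K (σ × Fin (N + 1 + 1)))) ∅ Constr.empty Constr.empty
      (Set.disjoint_empty _)
    rw [Set.empty_union] at h2
    exact left_eq_add.1 h2

/-- the coordinates -/
def eq {m l : ℕ} : (σ × Fin (m + 1)) ⊕ (σ × Fin l) ≃ σ × Fin (m + l + 1) :=
  (Equiv.prodSumDistrib σ (Fin (m + 1)) (Fin l)).symm.trans
    (Equiv.prodCongr (Equiv.refl σ) (finSumFinEquiv.trans (finCongr (by omega))))

theorem chi_level [Finite J] (g : J → MvPolynomial σ K) {V : Set (Pt K σ)} (hV : Constr V)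
    {R : Type} [CommRing R] (M : Meas K R) (m l : ℕ) :
    M.χ _ (OS g V m (m + l)) = M.χ _ (OS g V m m) * M.L ^ (Fintype.card σ * l) := by
  have h := chi_split M (eq (σ := σ) (m := m) (l := l)) (OS g V m (m + l)) (OS g V m m)
    (constr_OS g hV m m) ?_
  · rw [h, Fintype.card_prod, Fintype.card_fin]
  · intro z
    have h1 : ∀ j, ∀ k ≤ m, PowerSeries.coeff k (aeval (ar z) (g j)) = PowerSeries.coeff k
        (aeval (ar fun i => z (eq (Sum.inl i))) (g j)) := by
      intro j
      refine coeff_congr m _ _ (fun i k hk => ?_) (g j)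
      rw [coeff_ar, coeff_ar, dif_pos (by omega), dif_pos (by omega)]
      congr 1
    unfold OS
    simp only [Set.mem_ofPred_eq]
    refine and_congr ?_ (and_congr ?_ ?_)
    · have h2 : (fun i : σ => z (i, 0)) = fun i => z (eq (m := m) (l := l) (Sum.inl (i, 0))) := by
        funext i
        congr 1
      rw [h2]
    · exact forall_congr' fun j => forall₂_congr fun k hk => by rw [h1 j k hk.le]
    · exact exists_congr fun j => by rw [h1 j m le_rfl]

end Rec

open Rec in
theorem t_REC : S_REC := by
  intro K _ σ J _ _ g d hd hg R _ M v hv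
  classical
  have hJ : ∀ V N, JetF g V N = OS g V N N := fun V N => rfl
  refine ⟨?_, ?_, ?_⟩
  · ext N
    rw [mul_assoc, PowerSeries.coeff_C_mul, PowerSeries.coeff_X_pow_mul']
    unfold ZF
    rw [PowerSeries.coeff_mk, hJ]
    rcases N with _ | N
    · rw [if_neg (by omega), mul_zero]
      have h1 : OS g {0} 0 0 = ∅ := by
        rw [Set.eq_empty_iff_forall_notMem]
        rintro z ⟨h2, -, j, h3⟩
        apply h3
        rw [coeff_zero_aeval']
        have h4 : (fun i => z (i, 0)) = fun i => (0 : AlgebraicClosure K) * z (i, 0) := by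
          funext i
          rw [zero_mul]
          exact congrFun h2 i
        rw [h4, aeval_hom _ _ (hg j), zero_pow hd.ne', zero_mul]
      rw [h1]
      have h2 := M.add (∅ : Set (Pt K (σ × Fin (0 + 1)))) ∅ Constr.empty Constr.empty
        (Set.disjoint_empty _)
      rw [Set.empty_union] at h2
      rw [left_eq_add.1 h2, zero_mul, mul_zero]
    · rw [chi_shift g hg]
      split_ifs with h
      · rw [PowerSeries.coeff_mk, hJ]
        obtain ⟨l, hl⟩ : ∃ l, N = (N + 1 - d) + l := ⟨N - (N + 1 - d), by omega⟩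
        have h1 : ∀ N', N' = (N + 1 - d) + l →
            M.χ (σ × Fin (N' + 1)) (OS g Set.univ (N + 1 - d) N') =
            M.χ _ (OS g Set.univ (N + 1 - d) (N + 1 - d)) * M.L ^ (Fintype.card σ * l) := by
          rintro N' rfl
          exact chi_level g Constr.univ M _ _
        rw [h1 N hl]
        have h2 : Fintype.card σ * (N + 1) =
            Fintype.card σ * l + (Fintype.card σ + Fintype.card σ * (N + 1 - d)) := by
          have : N + 1 = l + (1 + (N + 1 - d)) := by omega
          calc Fintype.card σ * (N + 1) = Fintype.card σ * (l + (1 + (N + 1 - d))) := by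
                rw [← this]
            _ = _ := by ring
        have h3 : M.L ^ (Fintype.card σ * l) * v ^ (Fintype.card σ * l) = 1 := by
          rw [← mul_pow, hv, one_pow]
        rw [h2, pow_add, pow_add]
        calc M.χ _ (OS g Set.univ (N + 1 - d) (N + 1 - d)) * M.L ^ (Fintype.card σ * l) *
              (v ^ (Fintype.card σ * l) *
                (v ^ Fintype.card σ * v ^ (Fintype.card σ * (N + 1 - d))))
            = M.χ _ (OS g Set.univ (N + 1 - d) (N + 1 - d)) *
              (M.L ^ (Fintype.card σ * l) * v ^ (Fintype.card σ * l)) *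
                (v ^ Fintype.card σ * v ^ (Fintype.card σ * (N + 1 - d))) := by ring
          _ = _ := by
            rw [h3]
            ring
      · rw [zero_mul, mul_zero]
  · intro V W hV hW hVW
    ext N
    unfold ZF
    rw [map_add, PowerSeries.coeff_mk, PowerSeries.coeff_mk, PowerSeries.coeff_mk, ← add_mul]
    congr 1
    rw [hJ, hJ, hJ, ← M.add _ _ (constr_OS g hV N N) (constr_OS g hW N N)]
    · congr 1
      ext z
      unfold OS
      simp only [Set.mem_ofPred_eq, Set.mem_union]
      tauto
    · rw [Set.disjoint_left]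
      intro z hz hz'
      exact Set.disjoint_left.1 hVW hz.1 hz'.1
  · intro V hV hVg
    ext N
    unfold ZF
    rw [PowerSeries.coeff_mk, hJ, PowerSeries.coeff_C]
    split_ifs with hN
    · subst hN
      rw [mul_zero, pow_zero, mul_one]
      refine M.iso _ _ (constr_OS g hV 0 0) hV (fun z i => z (i, 0)) (fun x p => x p.1)
        (regularOn_poly (fun i => IsPF.coord _) _) (regularOn_poly (fun i => IsPF.coord _) _)
        ?_ ?_ ?_ ?_
      · intro z hz
        exact hz.1
      · intro x hx
        refine ⟨hx, fun j k hk => absurd hk (Nat.not_lt_zero _), ?_⟩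
        obtain ⟨j, hj⟩ := hVg x hx
        refine ⟨j, ?_⟩
        rw [coeff_zero_aeval']
        exact hj
      · intro z _
        funext ⟨i, k⟩
        change z (i, 0) = z (i, k)
        rw [show k = 0 from Fin.ext (by omega)]
      · intro x _
        rfl
    · have h1 : OS g V N N = ∅ := by
        rw [Set.eq_empty_iff_forall_notMem]
        rintro z ⟨h2, h3, -⟩
        obtain ⟨j, hj⟩ := hVg _ h2
        apply hj
        rw [← coeff_zero_aeval']
        exact h3 j 0 (Nat.pos_of_ne_zero hN)
      rw [h1]
      have h2 := M.add (∅ : Set (Pt K (σ × Fin (N + 1)))) ∅ Constr.empty Constr.empty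
        (Set.disjoint_empty _)
      rw [Set.empty_union] at h2
      rw [left_eq_add.1 h2, zero_mul]

end Pool.Agent.D0H87.CX
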