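import Pool.Agent.D0H67.CX.Stm

/-! # CX: SCALE -/

set_option autoImplicit false
set_option linter.unusedSectionVars false
set_option linter.unusedVariables false

namespace Pool.Agent.D0H87.CX

open MvPolynomial Pool.Agent.W428.MOT Pool.Agent.TH192.MT Pool.Agent.D0H67.SUB
open Pool.Agent.D0H67.CX

namespace Scale

theorem pf_smul {κ : Type} (a : ℂ) (i : κ) :
    IsPF fun z : Pt ℂ κ => (algebraMap ℂ (AlgebraicClosure ℂ) a • z) i := by
  have h := (IsPF.const (ι := κ) a).mul (IsPF.coord (K := ℂ) i)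
  exact h

theorem cls_zero {κ : Type} [Fintype κ] {S : Set (Pt ℂ κ)} (h : ¬ Constr S) : cls κ S = 0 := by
  unfold cls
  rw [dif_neg]
  intro h1
  apply h
  have h2 := h1.preimage (fun z : Pt ℂ κ => fun i => z ((Fintype.equivFin κ).symm i))
    fun i => IsPF.coord _
  have h3 : S = {z : Pt ℂ κ | (fun i => z ((Fintype.equivFin κ).symm i)) ∈ toFin S} := by
    ext z
    simp only [toFin, Set.mem_ofPred_eq, Equiv.symm_apply_apply]
  rw [h3]
  exact h2

theorem cls_eq {κ : Type} [Fintype κ] {a : ℂ} (ha : a ≠ 0) (S T : Set (Pt ℂ κ))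
    (h : ∀ z, z ∈ S ↔ algebraMap ℂ (AlgebraicClosure ℂ) a • z ∈ T) :
    algebraMap (K0 ℂ) (MK ℂ) (cls κ S) = algebraMap (K0 ℂ) (MK ℂ) (cls κ T) := by
  obtain ⟨M, -, hM⟩ := exists_meas ℂ
  have h1 : ∀ z : Pt ℂ κ, algebraMap ℂ (AlgebraicClosure ℂ) a⁻¹ •
      (algebraMap ℂ (AlgebraicClosure ℂ) a • z) = z := fun z => by
    rw [smul_smul, ← map_mul, inv_mul_cancel₀ ha, map_one, one_smul]
  have h2 : ∀ z : Pt ℂ κ, algebraMap ℂ (AlgebraicClosure ℂ) a •
      (algebraMap ℂ (AlgebraicClosure ℂ) a⁻¹ • z) = z := fun z => by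
    rw [smul_smul, ← map_mul, mul_inv_cancel₀ ha, map_one, one_smul]
  have hS : Constr T → Constr S := fun hT => by
    have := hT.preimage (fun z : Pt ℂ κ => algebraMap ℂ (AlgebraicClosure ℂ) a • z)
      (pf_smul a)
    rwa [← (Set.ext h : S = {z | algebraMap ℂ (AlgebraicClosure ℂ) a • z ∈ T})] at this
  have hT : Constr S → Constr T := fun hS => by
    have := hS.preimage (fun z : Pt ℂ κ => algebraMap ℂ (AlgebraicClosure ℂ) a⁻¹ • z)
      (pf_smul a⁻¹)
    have h3 : T = {z : Pt ℂ κ | algebraMap ℂ (AlgebraicClosure ℂ) a⁻¹ • z ∈ S} := by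
      ext z
      rw [Set.mem_ofPred_eq, h, h2]
    rwa [← h3] at this
  by_cases hc : Constr S
  · rw [← hM, ← hM]
    refine M.iso S T hc (hT hc) (fun z => algebraMap ℂ (AlgebraicClosure ℂ) a • z)
      (fun z => algebraMap ℂ (AlgebraicClosure ℂ) a⁻¹ • z) (regularOn_poly (pf_smul a) _)
      (regularOn_poly (pf_smul a⁻¹) _) ?_ ?_ ?_ ?_
    · intro z hz
      exact (h z).1 hz
    · intro z hz
      change _ ∈ S
      rw [h, h2]
      exact hz
    · intro z _
      exact h1 z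
    · intro z _
      exact h2 z
  · rw [cls_zero hc, cls_zero fun hc' => hc (hS hc')]

theorem ar_smul {σ : Type} {N : ℕ} (α : AlgebraicClosure ℂ) (z : Pt ℂ (σ × Fin (N + 1))) (i : σ) :
    ar (α • z) i = PowerSeries.C α * ar z i := by
  ext k
  rw [PowerSeries.coeff_C_mul, coeff_ar, coeff_ar]
  split_ifs
  · rfl
  · rw [mul_zero]

theorem coeff_smul {σ : Type} {N : ℕ} (α : AlgebraicClosure ℂ) (z : Pt ℂ (σ × Fin (N + 1)))
    {f : MvPolynomial σ ℂ} {d : ℕ} (hf : f.IsHomogeneous d) (k : ℕ) :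
    PowerSeries.coeff k (aeval (ar (α • z)) f) = α ^ d * PowerSeries.coeff k (aeval (ar z) f) := by
  have h1 : aeval (ar (α • z)) f = PowerSeries.C (α ^ d) * aeval (ar z) f := by
    have h2 : (fun i => ar (α • z) i) = fun i => PowerSeries.C α * ar z i :=
      funext fun i => ar_smul α z i
    change aeval (fun i => ar (α • z) i) f = _
    rw [h2, map_pow, aeval_def, aeval_def, eval₂_eq, eval₂_eq, Finset.mul_sum]
    refine Finset.sum_congr rfl fun m hm => ?_
    have h3 : ∑ i ∈ m.support, m i = d := by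
      have := hf (mem_support_iff.1 hm)
      rw [← this, Finsupp.weight_apply, Finsupp.sum]
      exact Finset.sum_congr rfl fun i _ => by simp
    have h4 : ∏ i ∈ m.support, (PowerSeries.C α * ar z i) ^ m i =
        PowerSeries.C α ^ d * ∏ i ∈ m.support, ar z i ^ m i := by
      rw [← h3, ← Finset.prod_pow_eq_pow_sum, ← Finset.prod_mul_distrib]
      exact Finset.prod_congr rfl fun i _ => by rw [mul_pow]
    rw [h4]
    ring
  rw [h1, PowerSeries.coeff_C_mul]

theorem jetE {σ J : Type} {g : J → MvPolynomial σ ℂ} {d : ℕ} (hg : ∀ j, (g j).IsHomogeneous d)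
    {α : AlgebraicClosure ℂ} (hα : α ≠ 0) (p : Pt ℂ σ) (y : J → AlgebraicClosure ℂ) (N : ℕ)
    (z : Pt ℂ (σ × Fin (N + 1))) : z ∈ JetE g p y N ↔ α • z ∈ JetE g (α • p) y N := by
  have hd : α ^ d ≠ 0 := pow_ne_zero _ hα
  refine and_congr ?_ (and_congr ?_ ?_)
  · refine forall_congr' fun i => ?_
    change _ ↔ α * z (i, 0) = α * p i
    exact (mul_right_inj' hα).symm
  · refine forall_congr' fun j => forall₂_congr fun k _ => ?_
    rw [coeff_smul α z (hg j) k, mul_eq_zero, or_iff_right hd]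
  · constructor
    · rintro ⟨c, hc, h⟩
      refine ⟨α ^ d * c, mul_ne_zero hd hc, fun j => ?_⟩
      rw [coeff_smul α z (hg j), h j, mul_assoc]
    · rintro ⟨c, hc, h⟩
      refine ⟨(α ^ d)⁻¹ * c, mul_ne_zero (inv_ne_zero hd) hc, fun j => ?_⟩
      have := h j
      rw [coeff_smul α z (hg j)] at this
      rw [mul_assoc, ← this, inv_mul_cancel_left₀ hd]

end Scale

open Scale in
theorem t_SCALE : S_SCALE := by
  intro σ J _ _ g d hg a ha p y b hb
  obtain ⟨h1, h2, h3, h4⟩ := hb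
  have hα : algebraMap ℂ (AlgebraicClosure ℂ) a ≠ 0 := by
    rw [Ne, map_eq_zero]
    exact ha
  have hp : (fun i => algebraMap ℂ (AlgebraicClosure ℂ) ((a • p) i)) =
      algebraMap ℂ (AlgebraicClosure ℂ) a •
        fun i => algebraMap ℂ (AlgebraicClosure ℂ) (p i) := by
    funext i
    rw [Pi.smul_apply, Pi.smul_apply, smul_eq_mul, smul_eq_mul, map_mul]
  refine ⟨h1, ?_, h3, fun N hN => ?_⟩
  · obtain ⟨N, hN, z, hz⟩ := h2
    refine ⟨N, hN, algebraMap ℂ (AlgebraicClosure ℂ) a • z, ?_⟩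
    rw [hp]
    exact (jetE hg hα _ _ N z).1 hz
  · obtain ⟨P, k, hP, hk⟩ := h4 N hN
    refine ⟨P, k, hP, ?_⟩
    rw [← hk]
    congr 1
    rw [hp]
    exact (cls_eq ha _ _ fun z => jetE hg hα _ _ N z).symm

end Pool.Agent.D0H87.CX
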