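import Pool.Agent.D0H67.CX.Stm

/-! # CX: TAY -/

set_option autoImplicit false
set_option linter.unusedSectionVars false
set_option linter.unusedVariables false

namespace Pool.Agent.D0H87.CX

open MvPolynomial Pool.Agent.W428.MOT Pool.Agent.TH192.MT Pool.Agent.D0H67.SUB
  Pool.Agent.D0H67.SUB.Lev
open Pool.Agent.D0H67.CX

section

variable {K : Type} [Field K] {σ : Type}

theorem coeff_ar_jk {N : ℕ} (z : Pt K (σ × Fin (N + 1))) (i : σ) (j : ℕ) :
    PowerSeries.coeff j (ar z i) = jk z j i := by
  rw [coeff_ar]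
  rfl

/-- the constant term of the value at an arc -/
theorem cc_aeval {N : ℕ} (f : MvPolynomial σ K) (z : Pt K (σ × Fin (N + 1))) :
    PowerSeries.constantCoeff (aeval (ar z) f) = aeval (jk z 0) f := by
  induction f using MvPolynomial.induction_on with
  | C a =>
    rw [MvPolynomial.algHom_C, MvPolynomial.algHom_C, PowerSeries.algebraMap_apply,
      PowerSeries.constantCoeff_C]
  | add p q hp hq => rw [map_add, map_add, map_add, hp, hq]
  | mul_X p i hp =>
    rw [map_mul, map_mul, map_mul, hp, aeval_X, aeval_X,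
      ← PowerSeries.coeff_zero_eq_constantCoeff_apply, coeff_ar_jk]

variable [Fintype σ]

theorem taylor {N k : ℕ} (hk : 0 < k) (z z' : Pt K (σ × Fin (N + 1)))
    (h : ∀ j < k, jk z j = jk z' j) (f : MvPolynomial σ K) :
    ∃ P : PowerSeries (AlgebraicClosure K),
      aeval (ar z) f = aeval (ar z') f + PowerSeries.X ^ k * P ∧
      PowerSeries.constantCoeff P =
        ∑ i, aeval (jk z 0) (pderiv i f) * (jk z k i - jk z' k i) := by
  classical
  have h0 : jk z' 0 = jk z 0 := (h 0 hk).symm
  induction f using MvPolynomial.induction_on with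
  | C a =>
    refine ⟨0, ?_, ?_⟩
    · rw [MvPolynomial.algHom_C, MvPolynomial.algHom_C, mul_zero, add_zero]
    · simp
  | add p q hp hq =>
    obtain ⟨P, hP, hP'⟩ := hp
    obtain ⟨Q, hQ, hQ'⟩ := hq
    refine ⟨P + Q, ?_, ?_⟩
    · rw [map_add, map_add, hP, hQ]
      ring
    · rw [map_add, hP', hQ', ← Finset.sum_add_distrib]
      refine Finset.sum_congr rfl fun i _ => ?_
      rw [map_add, map_add]
      ring
  | mul_X p i hp =>
    obtain ⟨P, hP, hP'⟩ := hp
    have hX : ∃ Q : PowerSeries (AlgebraicClosure K), ar z i = ar z' i + PowerSeries.X ^ k * Q ∧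
        PowerSeries.constantCoeff Q = jk z k i - jk z' k i := by
      have h1 : PowerSeries.X ^ k ∣ ar z i - ar z' i := by
        rw [PowerSeries.X_pow_dvd_iff]
        intro j hj
        rw [map_sub, coeff_ar_jk, coeff_ar_jk, h j hj, sub_self]
      obtain ⟨Q, hQ⟩ := h1
      refine ⟨Q, by rw [← hQ]; ring, ?_⟩
      rw [← coeff_ar_jk, ← coeff_ar_jk, ← map_sub, hQ]
      have := PowerSeries.coeff_X_pow_mul Q k 0
      rw [Nat.zero_add] at this
      rw [this, PowerSeries.coeff_zero_eq_constantCoeff_apply]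
    obtain ⟨Q, hQ, hQ'⟩ := hX
    refine ⟨P * ar z' i + aeval (ar z') p * Q + PowerSeries.X ^ k * P * Q, ?_, ?_⟩
    · rw [map_mul, map_mul, aeval_X, aeval_X, hP, hQ]
      ring
    · rw [map_add, map_add, map_mul, map_mul, map_mul, map_mul, map_pow,
        PowerSeries.constantCoeff_X, zero_pow hk.ne', zero_mul, zero_mul, add_zero, hP', hQ',
        cc_aeval, h0, ← PowerSeries.coeff_zero_eq_constantCoeff_apply, coeff_ar_jk, h0]
      have h2 : ∀ j, aeval (jk z 0) (pderiv j (p * X i)) * (jk z k j - jk z' k j) =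
          aeval (jk z 0) (pderiv j p) * (jk z k j - jk z' k j) * jk z 0 i +
            (if i = j then aeval (jk z 0) p * (jk z k i - jk z' k i) else 0) := by
        intro j
        rw [Derivation.leibniz, pderiv_X, smul_eq_mul, smul_eq_mul, map_add, map_mul, map_mul,
          aeval_X]
        by_cases hij : i = j
        · subst hij
          rw [if_pos rfl, Pi.single_eq_same, map_one]
          ring
        · rw [if_neg hij, Pi.single_eq_of_ne hij, map_zero]
          ring
      rw [Finset.sum_congr rfl fun j _ => h2 j, Finset.sum_add_distrib, ← Finset.sum_mul,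
        Finset.sum_ite_eq, if_pos (Finset.mem_univ _)]

end

theorem t_TAY : S_TAY := by
  intro K _ σ _ f N k hk z z' h
  obtain ⟨P, hP, hP'⟩ := taylor hk z z' h f
  refine ⟨fun j hj => ?_, ?_⟩
  · rw [hP, map_add, PowerSeries.coeff_X_pow_mul', if_neg (by omega), add_zero]
  · rw [hP, map_add, PowerSeries.coeff_X_pow_mul', if_pos le_rfl, Nat.sub_self,
      PowerSeries.coeff_zero_eq_constantCoeff_apply, hP']

end Pool.Agent.D0H87.CX
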