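import Pool.Agent.D0H67.CX.Stm

/-! # CX: NEAR -/

set_option autoImplicit false
set_option linter.unusedSectionVars false
set_option linter.unusedVariables false

namespace Pool.Agent.D0H87.CX

open MvPolynomial
open Pool.Agent.D0H67.CX

namespace Near

variable {σ τ : Type} [Fintype σ] [Fintype τ]

/-- the differential of a polynomial -/
noncomputable def dif (u : σ → ℂ) (f : MvPolynomial σ ℂ) : (σ → ℂ) →L[ℂ] ℂ :=
  ∑ k, eval u (pderiv k f) • ContinuousLinearMap.proj (R := ℂ) (φ := fun _ : σ => ℂ) k

theorem dif_apply (u : σ → ℂ) (f : MvPolynomial σ ℂ) (v : σ → ℂ) :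
    dif u f v = ∑ k, eval u (pderiv k f) * v k := by
  unfold dif
  rw [sum_apply]
  rfl

theorem deriv_poly (u : σ → ℂ) (f : MvPolynomial σ ℂ) :
    HasStrictFDerivAt (fun p : σ → ℂ => eval p f) (dif u f) u := by
  classical
  induction f using MvPolynomial.induction_on with
  | C a =>
    have h1 : dif u (C a : MvPolynomial σ ℂ) = 0 := by
      ext v
      rw [dif_apply]
      simp
    rw [h1]
    simp only [eval_C]
    exact hasStrictFDerivAt_const a u
  | add p q hp hq =>
    have h1 : dif u (p + q) = dif u p + dif u q := by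
      ext v
      simp only [add_apply, dif_apply, map_add, add_mul,
        Finset.sum_add_distrib]
    rw [h1]
    simp only [map_add]
    exact hp.add hq
  | mul_X p i hp =>
    have hX : HasStrictFDerivAt (fun p : σ → ℂ => p i)
        (ContinuousLinearMap.proj (R := ℂ) (φ := fun _ : σ => ℂ) i) u :=
      (ContinuousLinearMap.proj (R := ℂ) (φ := fun _ : σ => ℂ) i).hasStrictFDerivAt
    have h2 := hp.mul hX
    have h1 : dif u (p * X i) = (eval u p) •
        (ContinuousLinearMap.proj (R := ℂ) (φ := fun _ : σ => ℂ) i) + (u i) • dif u p := by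
      ext v
      rw [add_apply, smul_apply,
        smul_apply, dif_apply, dif_apply, ContinuousLinearMap.proj_apply,
        smul_eq_mul, smul_eq_mul, Finset.mul_sum]
      have h3 : ∀ k, eval u (pderiv k (p * X i)) * v k =
          (if i = k then eval u p * v i else 0) + u i * (eval u (pderiv k p) * v k) := by
        intro k
        rw [Derivation.leibniz, pderiv_X, smul_eq_mul, smul_eq_mul, map_add, map_mul, map_mul,
          eval_X]
        by_cases hik : i = k
        · subst hik
          rw [if_pos rfl, Pi.single_eq_same, map_one]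
          ring
        · rw [if_neg hik, Pi.single_eq_of_ne hik, map_zero]
          ring
      rw [Finset.sum_congr rfl fun k _ => h3 k, Finset.sum_add_distrib, Finset.sum_ite_eq,
        if_pos (Finset.mem_univ _)]
    rw [h1]
    simp only [map_mul, eval_X]
    exact h2

end Near

open Near in
theorem t_NEAR : S_NEAR := by
  intro σ τ _ _ f u hli ε hε
  classical
  set F : (σ → ℂ) → (τ → ℂ) := fun p i => eval p (f i) with hF
  have h1 : HasStrictFDerivAt F (ContinuousLinearMap.pi fun i => dif u (f i)) u :=
    hasStrictFDerivAt_pi.2 fun i => deriv_poly u (f i)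
  have h2 : (ContinuousLinearMap.pi fun i => dif u (f i) : (σ → ℂ) →L[ℂ] (τ → ℂ)).range = ⊤ := by
    set A : Matrix τ σ ℂ := Matrix.of fun i k => eval u (pderiv k (f i)) with hA
    have hr : A.rank = Fintype.card τ := by
      rw [Matrix.rank_eq_finrank_span_row]
      exact finrank_span_eq_card hli
    have h3 : LinearMap.range A.mulVecLin = ⊤ := by
      apply Submodule.eq_top_of_finrank_eq
      rw [Module.finrank_fintype_fun_eq_card, ← hr]
      rfl
    rw [eq_top_iff]
    intro y _
    have h4 : y ∈ LinearMap.range A.mulVecLin := by rw [h3]; trivial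
    obtain ⟨v, hv⟩ := h4
    refine ⟨v, ?_⟩
    rw [← hv]
    funext i
    change dif u (f i) v = _
    rw [dif_apply]
    rfl
  have h3 := h1.map_nhds_eq_of_surj h2
  have h4 : F '' Metric.ball u ε ∈ nhds (F u) := by
    rw [← h3]
    exact Filter.image_mem_map (Metric.ball_mem_nhds u hε)
  obtain ⟨δ, hδ, hδ'⟩ := Metric.mem_nhds_iff.1 h4
  refine ⟨δ, hδ, fun y hy => ?_⟩
  have h5 : y ∈ Metric.ball (F u) δ := by
    rw [Metric.mem_ball, dist_eq_norm]
    exact hy
  obtain ⟨p, hp, hpy⟩ := hδ' h5
  refine ⟨p, ?_, fun i => ?_⟩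
  · rw [← dist_eq_norm]
    exact hp
  · exact congrFun hpy i

end Pool.Agent.D0H87.CX
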